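import Mathlib

namespace Pool.Agent.Results.MP_e99302_nt.Runs

/-- The Collatz map. -/
def C (n : ℕ) : ℕ := if n % 2 = 0 then n / 2 else 3 * n + 1

/-- `n` has finite height `k`: `k` is the least number of steps reaching `1`. -/
def HasHeight (n k : ℕ) : Prop := C^[k] n = 1 ∧ ∀ j < k, C^[j] n ≠ 1

def Reach (K r a b : ℕ) : Prop := ∀ m, C^[K + a] (2 ^ K * m + r) = 3 ^ a * m + b

def St (p a b a' b' : ℕ) : Prop :=
  (a' = a ∧ 2 * b' = 3 ^ a * p + b) ∨
  (a' = a + 1 ∧ (3 ^ a * p + b) % 2 = 1 ∧ 2 * b' = 3 * (3 ^ a * p + b) + 1)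

theorem C_even (y : ℕ) : C (2 * y) = y := by unfold C; rw [if_pos (by omega)]; omega

theorem C_odd {x : ℕ} (h : x % 2 = 1) : C x = 3 * x + 1 := by unfold C; rw [if_neg (by omega)]

theorem reach_step {K r a b p a' b' : ℕ} (h : Reach K r a b) (hs : St p a b a' b') :
    Reach (K + 1) (r + 2 ^ K * p) a' b' := by
  intro m
  have := h (2 * m + p)
  rw [show 2 ^ (K + 1) * m + (r + 2 ^ K * p) = 2 ^ K * (2 * m + p) + r by ring]
  rcases hs with ⟨rfl, e⟩ | ⟨rfl, e1, e2⟩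
  · rw [show K + 1 + a' = (K + a') + 1 by ring, Function.iterate_succ_apply', this,
      show 3 ^ a' * (2 * m + p) + b = 2 * (3 ^ a' * m + b') by linarith, C_even]
  · rw [show K + 1 + (a + 1) = (K + a) + 1 + 1 by ring, Function.iterate_succ_apply',
      Function.iterate_succ_apply', this,
      show 3 ^ a * (2 * m + p) + b = 2 * (3 ^ a * m) + (3 ^ a * p + b) by ring,
      C_odd (x := 2 * (3 ^ a * m) + (3 ^ a * p + b)) (by omega),
      show 3 * (2 * (3 ^ a * m) + (3 ^ a * p + b)) + 1 = 2 * (3 ^ (a + 1) * m + b') by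
        rw [pow_succ]; linarith, C_even]

theorem odd3 (a : ℕ) : 3 ^ a % 2 = 1 := by simp [Nat.pow_mod]

theorem par (a b q : ℕ) (hq : q < 2) : ∃ p, (3 ^ a * p + b) % 2 = q := by
  have := odd3 a
  by_cases h : b % 2 = q
  · exact ⟨0, by simpa using h⟩
  · exact ⟨1, by omega⟩

theorem exists_reach (K r : ℕ) : ∃ a b, Reach K r a b := by
  induction K with
  | zero => exact ⟨0, r, fun m => by simp⟩
  | succ K ih =>
    obtain ⟨a, b, h⟩ := ih
    rcases Nat.mod_two_eq_zero_or_one b with e | e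
    · exact ⟨a, b / 2, by simpa using reach_step (p := 0) h (Or.inl ⟨rfl, by omega⟩)⟩
    · exact ⟨a + 1, (3 * b + 1) / 2, by
        simpa using reach_step (p := 0) h (Or.inr ⟨rfl, by omega, by omega⟩)⟩

inductive Mrg : ℕ → ℕ → ℕ → ℕ → Prop
  | refl (a b : ℕ) : Mrg a b a b
  | step {p a b c d a' b' c' d' : ℕ} : St p a b a' b' → St p c d c' d' → Mrg a' b' c' d' → Mrg a b c d

theorem Mrg.symm {a b c d : ℕ} (h : Mrg a b c d) : Mrg c d a b := by
  induction h with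
  | refl => exact Mrg.refl _ _
  | step h1 h2 _ ih => exact Mrg.step h2 h1 ih

def M (e : ℕ) (c : ℤ) : Prop := ∀ a b b' : ℕ, (b' : ℤ) = 3 ^ e * b + c → Mrg a b (a + e) b'

theorem odd3z (e : ℕ) : ∃ u : ℤ, 3 ^ e = 2 * u + 1 := (Odd.pow (by decide) : Odd ((3 : ℤ) ^ e))

theorem setup (e a b b' q : ℕ) (c : ℤ) (hq : q < 2) (h : (b' : ℤ) = 3 ^ e * b + c) :
    ∃ p X Y : ℕ, X = 3 ^ a * p + b ∧ Y = 3 ^ (a + e) * p + b' ∧ X % 2 = q ∧
      (Y : ℤ) = 3 ^ e * X + c ∧ ∃ w : ℤ, (Y : ℤ) = 2 * w + X + c := by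
  obtain ⟨p, hp⟩ := par a b q hq
  obtain ⟨u, hu⟩ := odd3z e
  have : ((3 ^ (a + e) * p + b' : ℕ) : ℤ) = 3 ^ e * (3 ^ a * p + b : ℕ) + c := by
    push_cast; rw [h]; ring
  exact ⟨p, _, _, rfl, rfl, hp, this, u * (3 ^ a * p + b : ℕ), by rw [this, hu]; ring⟩

theorem EE {e : ℕ} {d : ℤ} (h : M e d) : M e (2 * d) := by
  intro a b b' hb
  obtain ⟨p, X, Y, h1, h2, h3, h4, w, h5⟩ := setup e a b b' 0 _ (by norm_num) hb
  obtain ⟨x, rfl⟩ : ∃ x, X = 2 * x := ⟨X / 2, by omega⟩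
  obtain ⟨y, rfl⟩ : ∃ y, Y = 2 * y := ⟨Y / 2, by omega⟩
  refine Mrg.step (Or.inl ⟨rfl, h1⟩) (Or.inl ⟨rfl, h2⟩) (h a x y ?_)
  push_cast at h4
  linarith

theorem OO {e : ℕ} {d : ℤ} (h : M e d) (hd : 2 * d = 1 - 3 ^ e) : M e 0 := by
  intro a b b' hb
  obtain ⟨p, X, Y, h1, h2, h3, h4, w, h5⟩ := setup e a b b' 1 _ (by norm_num) hb
  obtain ⟨x, hx⟩ : ∃ x, 2 * x = 3 * X + 1 := ⟨(3 * X + 1) / 2, by omega⟩
  obtain ⟨y, hy⟩ : ∃ y, 2 * y = 3 * Y + 1 := ⟨(3 * Y + 1) / 2, by omega⟩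
  have := h (a + 1) x y (by
    zify at hx hy
    have : (2 : ℤ) * y = 2 * (3 ^ e * x + d) := by linear_combination hy + 3 * h4 - 3 ^ e * hx - hd
    linarith)
  rw [add_right_comm] at this
  exact Mrg.step (Or.inr ⟨rfl, by omega, h1 ▸ hx⟩) (Or.inr ⟨rfl, by omega, h2 ▸ hy⟩) this

theorem EO {e : ℕ} {c d : ℤ} (h : M (e + 1) d) (hd : 2 * d = 3 * c + 1) : M e c := by
  intro a b b' hb
  obtain ⟨p, X, Y, h1, h2, h3, h4, w, h5⟩ := setup e a b b' 0 _ (by norm_num) hb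
  obtain ⟨x, rfl⟩ : ∃ x, X = 2 * x := ⟨X / 2, by omega⟩
  obtain ⟨y, hy⟩ : ∃ y, 2 * y = 3 * Y + 1 := ⟨(3 * Y + 1) / 2, by omega⟩
  have := h a x y (by
    zify at hy
    push_cast at h4
    have : (2 : ℤ) * y = 2 * (3 ^ (e + 1) * x + d) := by linear_combination hy + 3 * h4 - hd
    linarith)
  exact Mrg.step (Or.inl ⟨rfl, h1⟩) (Or.inr ⟨rfl, by omega, h2 ▸ hy⟩) this

theorem OE {e : ℕ} {c d : ℤ} (h : M e d) (hd : 2 * d = c - 3 ^ e) : M (e + 1) c := by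
  intro a b b' hb
  obtain ⟨p, X, Y, h1, h2, h3, h4, w, h5⟩ := setup (e + 1) a b b' 1 _ (by norm_num) hb
  obtain ⟨u, hu⟩ := odd3z e
  obtain ⟨x, hx⟩ : ∃ x, 2 * x = 3 * X + 1 := ⟨(3 * X + 1) / 2, by omega⟩
  obtain ⟨y, rfl⟩ : ∃ y, Y = 2 * y := ⟨Y / 2, by rw [hu] at hd; omega⟩
  have := h (a + 1) x y (by
    zify at hx
    push_cast at h4
    have : (2 : ℤ) * y = 2 * (3 ^ e * x + d) := by linear_combination h4 - 3 ^ e * hx - hd
    linarith)
  rw [add_assoc, add_comm 1 e] at this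
  exact Mrg.step (Or.inr ⟨rfl, by omega, h1 ▸ hx⟩) (Or.inl ⟨rfl, h2⟩) this

theorem M1 (d : ℕ) : 0 < d → (∀ u : ℕ, 2 * u + 1 ≤ d → M 0 u) → M 1 d := by
  induction d using Nat.strong_induction_on with
  | _ d ih =>
    intro hd h
    rcases Nat.even_or_odd' d with ⟨k, rfl | rfl⟩
    · have := EE (ih k (by omega) (by omega) fun u hu => h u (by omega))
      exact_mod_cast this
    · exact OE (h k le_rfl) (by push_cast; ring)

theorem M0 (c : ℕ) : M 0 c := by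
  induction c using Nat.strong_induction_on with
  | _ c ih =>
    rcases Nat.even_or_odd' c with ⟨k, rfl | rfl⟩
    · rcases Nat.eq_zero_or_pos k with rfl | hk
      · intro a b b' h
        have : b' = b := by simpa using h
        rw [this]
        exact Mrg.refl _ _
      · exact_mod_cast EE (ih k (by omega))
    · exact EO (M1 (3 * k + 2) (by omega) fun u hu => ih u (by omega)) (by push_cast; ring)

theorem Mall (e : ℕ) : ∀ c, M e c := by
  induction e with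
  | zero =>
    intro c
    obtain ⟨n, rfl | rfl⟩ := c.eq_nat_or_neg
    · exact M0 n
    · intro a b b' h
      exact (M0 n a b' b (by linarith)).symm
  | succ e ih =>
    obtain ⟨u, hu⟩ := odd3z e
    have nz : ∀ (n : ℕ) (c : ℤ), c.natAbs = n → c ≠ 0 → M (e + 1) c := by
      intro n
      induction n using Nat.strong_induction_on with
      | _ n ih2 =>
        intro c hc h0
        rcases Int.even_or_odd' c with ⟨k, rfl | rfl⟩
        · exact EE (ih2 _ (by omega) k rfl (by omega))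
        · exact OE (ih (k - u)) (by rw [hu]; ring)
    intro c
    by_cases h0 : c = 0
    · subst h0
      have : (0 : ℤ) < 3 ^ e := by positivity
      exact OO (nz _ (-(3 * u + 1)) rfl (by omega)) (by rw [pow_succ, hu]; ring)
    · exact nz _ c rfl h0

theorem mrg (a b c d : ℕ) : Mrg a b c d := by
  rcases le_total a c with h | h
  · obtain ⟨e, rfl⟩ := Nat.exists_eq_add_of_le h
    exact Mall e (d - 3 ^ e * b) a b d (by ring)
  · obtain ⟨e, rfl⟩ := Nat.exists_eq_add_of_le h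
    exact (Mall e (b - 3 ^ e * d) c d b (by ring)).symm

theorem shift {L K r a b p a' b' : ℕ} (h : ∀ i < L, Reach K (r + i) a b) (hs : St p a b a' b') :
    ∀ i < L, Reach (K + 1) (r + 2 ^ K * p + i) a' b' := fun i hi => by
  rw [add_right_comm]
  exact reach_step (h i hi) hs

theorem run (L : ℕ) : ∃ K r a b, ∀ i < L, Reach K (r + i) a b := by
  induction L with
  | zero => exact ⟨0, 0, 0, 0, by simp⟩
  | succ L ih =>
    obtain ⟨K, r, a, b, h⟩ := ih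
    obtain ⟨c, d, h'⟩ := exists_reach K (r + L)
    have m := mrg a b c d
    induction m generalizing K r with
    | refl a b =>
      refine ⟨K, r, a, b, fun i hi => ?_⟩
      rcases Nat.lt_succ_iff_lt_or_eq.1 hi with e | rfl
      · exact h i e
      · exact h'
    | step s1 s2 _ ih =>
      refine ih _ _ (shift h s1) ?_
      rw [add_right_comm]
      exact reach_step h' s2

theorem lemQ (a : ℕ) : ∃ u : ℤ, 4 ^ 3 ^ a = 1 + 3 ^ (a + 1) * (3 * u + 1) := by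
  induction a with
  | zero => exact ⟨0, by norm_num⟩
  | succ a ih =>
    obtain ⟨u, hu⟩ := ih
    refine ⟨u + 3 ^ a * (3 * u + 1) ^ 2 + 3 ^ a * 3 ^ a * (3 * u + 1) ^ 3, ?_⟩
    rw [pow_succ 3 a, pow_mul, hu]
    ring

theorem lemP (N : ℕ) (v : ℤ) (a : ℕ) : ∃ j, N ≤ j ∧ ∃ t : ℤ, 4 ^ j = 3 * v + 1 + 3 ^ (a + 1) * t := by
  induction a with
  | zero =>
    obtain ⟨t, ht⟩ : (4 - 1 : ℤ) ∣ 4 ^ N - 1 ^ N := sub_dvd_pow_sub_pow 4 1 N
    exact ⟨N, le_rfl, t - v, by rw [one_pow] at ht; linear_combination ht⟩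
  | succ a ih =>
    obtain ⟨u, hu⟩ := lemQ a
    have once : ∀ j (t : ℤ), 4 ^ j = 3 * v + 1 + 3 ^ (a + 1) * t →
        ∃ s : ℤ, 4 ^ (j + 3 ^ a) = 3 * v + 1 + 3 ^ (a + 1) * (t + 1 + 3 * s) := fun j t h =>
      ⟨u + v + 3 * u * v + 3 ^ a * t * (3 * u + 1), by rw [pow_add, h, hu]; ring⟩
    obtain ⟨j, hj, t, ht⟩ := ih
    obtain ⟨s, hs⟩ := once j t ht
    obtain ⟨s', hs'⟩ := once _ _ hs
    have : t % 3 = 0 ∨ t % 3 = 1 ∨ t % 3 = 2 := by omega
    rcases this with e | e | e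
    · exact ⟨j, hj, t / 3, by rw [ht, pow_succ 3 (a + 1), mul_assoc]; congr 2; omega⟩
    · exact ⟨j + 3 ^ a + 3 ^ a, hj.trans ((Nat.le_add_right _ _).trans (Nat.le_add_right _ _)), (t + 1 + 3 * s + 1 + 3 * s') / 3, by
        rw [hs', pow_succ 3 (a + 1), mul_assoc]; congr 2; omega⟩
    · exact ⟨j + 3 ^ a, hj.trans (Nat.le_add_right _ _), (t + 1 + 3 * s) / 3, by
        rw [hs, pow_succ 3 (a + 1), mul_assoc]; congr 2; omega⟩

theorem pow_iter (w s : ℕ) : C^[w] (2 ^ (w + s)) = 2 ^ s := by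
  induction w with
  | zero => simp
  | succ w ih => rw [Function.iterate_succ_apply, show 2 ^ (w + 1 + s) = 2 * 2 ^ (w + s) by ring, C_even, ih]

theorem cyc (w : ℕ) : C^[w] 1 = 1 ∨ C^[w] 1 = 4 ∨ C^[w] 1 = 2 := by
  induction w with
  | zero => simp
  | succ w ih => rw [Function.iterate_succ_apply']; rcases ih with h | h | h <;> rw [h] <;> decide

theorem result (L : ℕ) : ∃ n k, 1 ≤ n ∧ ∀ i < L, HasHeight (n + i) k := by
  obtain ⟨K, r, a, b, h⟩ := run L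
  obtain ⟨p, hp⟩ := par a b 1 (by norm_num)
  obtain ⟨b1, h1⟩ : ∃ b1, 2 * b1 = 3 * (3 ^ a * p + b) + 1 := ⟨(3 * (3 ^ a * p + b) + 1) / 2, by omega⟩
  obtain ⟨q, hq⟩ := par (a + 1) b1 0 (by norm_num)
  obtain ⟨b2, h2⟩ : ∃ b2, 2 * b2 = 3 ^ (a + 1) * q + b1 := ⟨(3 ^ (a + 1) * q + b1) / 2, by omega⟩
  have H := shift (shift h (Or.inr ⟨rfl, hp, h1⟩)) (Or.inl ⟨rfl, h2⟩)
  obtain ⟨v, hv⟩ : ∃ v : ℕ, b2 = 3 * v + 1 := ⟨b2 / 3, by rw [pow_succ, mul_comm _ 3, mul_assoc] at h2; omega⟩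
  obtain ⟨j, hj, t, ht⟩ := lemP (b2 + 2) v a
  have big : b2 < 4 ^ j := lt_trans (by omega) (Nat.lt_pow_self (by norm_num) : j < 4 ^ j)
  have tpos : 0 < t := by
    have : ((b2 : ℕ) : ℤ) < 4 ^ j := by exact_mod_cast big
    rw [ht, hv] at this
    push_cast at this
    exact pos_of_mul_pos_left (a := t) (b := 3 ^ (a + 1)) (by linarith) (by positivity)
  obtain ⟨m, rfl⟩ := Int.eq_ofNat_of_zero_le tpos.le
  have e : 3 ^ (a + 1) * m + b2 = 2 ^ (2 * j) := by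
    rw [pow_mul, hv]
    zify
    rw [show ((2 : ℤ) ^ 2) = 4 by norm_num, ht]
    ring
  generalize r + 2 ^ K * p + 2 ^ (K + 1) * q = R at H
  have mpos : 0 < m := by exact_mod_cast tpos
  refine ⟨2 ^ (K + 1 + 1) * m + R, 2 * j + (K + 1 + 1 + (a + 1)), Nat.add_pos_left (by positivity) _,
    fun i hi => ?_⟩
  have key := H i hi m
  rw [e, ← add_assoc _ R i] at key
  generalize K + 1 + 1 + (a + 1) = T at key
  refine ⟨by rw [Function.iterate_add_apply, key]; exact pow_iter (2 * j) 0, fun l hl e1 => ?_⟩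
  rcases le_total l T with h3 | h3
  · obtain ⟨w, rfl⟩ := Nat.exists_eq_add_of_le' h3
    rw [Function.iterate_add_apply, e1] at key
    have : 2 ^ 4 ≤ 2 ^ (2 * j) := Nat.pow_le_pow_right (by norm_num) (by omega)
    have := cyc w
    omega
  · obtain ⟨w, rfl⟩ := Nat.exists_eq_add_of_le' h3
    obtain ⟨s, hs⟩ : ∃ s, 2 * j = w + (s + 1) := ⟨2 * j - w - 1, by omega⟩
    rw [Function.iterate_add_apply, key, hs, pow_iter, pow_succ] at e1
    omega

end Pool.Agent.Results.MP_e99302_nt.Runs
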